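import Pool.Agent.helper29.NS.Spec2

/-!
Project ns:, module AZ: Lemma A in normalised coordinates.
-/

namespace NS

open MeasureTheory Filter Topology Set

/-- the case of a positive normal derivative -/
theorem AZ_pos (hEN : EN_stmt) (hSE : SE_stmt) (hSR : SR_stmt) (hSB : SB_stmt)
    (f : ℝ → ℝ) (δ : ℝ) (hf : ContDiff ℝ 2 f) (hf0 : f 0 = 0) (hδ : 0 < δ)
    (hff : 0 < deriv (deriv f) 0) (a b m n : ℝ × ℝ → ℝ) (ha : ContDiff ℝ 2 a)
    (hb : ContDiff ℝ 2 b) (hm : ContDiff ℝ 2 m) (hn : ContDiff ℝ 2 n)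
    (heq : ∀ s r, |s| < δ → |r| < δ → f s < r → px a (s, r) + py b (s, r) = 0 ∧
      px m (s, r) + py n (s, r) = 0 ∧
      px m (s, r) * px a (s, r) + py m (s, r) * px b (s, r) + px n (s, r) * py a (s, r)
        + py n (s, r) * py b (s, r) = 0)
    (hbd : ∀ s, |s| < δ → |f s| < δ →
      a (s, f s) = 0 ∧ b (s, f s) = 0 ∧ m (s, f s) = 0 ∧ n (s, f s) = 0)
    (hpos : 0 < py a (0, 0)) :
    ∃ ε > 0, ∀ s r, |s| < ε → |r| < ε → f s < r → m (s, r) = 0 ∧ n (s, r) = 0 := by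
  obtain ⟨⟨ε1, hε1, hBC⟩, -, hCy⟩ := hSB f δ a b hf hf0 hδ ha hb
    (fun s r h1 h2 h3 => (heq s r h1 h2 h3).1)
    (fun s h1 h2 => ⟨(hbd s h1 h2).1, (hbd s h1 h2).2.1⟩)
  obtain ⟨rA, rB, rC, rP, rQ⟩ := hSR f a b m n hf ha hb hm hn
  have hcont : Continuous f := hf.continuous
  -- continuity of f at 0
  have hsmall : ∀ e > 0, ∃ d > 0, ∀ s, |s| < d → |f s| < e := by
    intro e he
    have h := Metric.continuousAt_iff.1 (hcont.continuousAt (x := 0)) e he
    obtain ⟨d, hd, h⟩ := h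
    refine ⟨d, hd, fun s hs => ?_⟩
    have := h (x := s) (by rw [Real.dist_eq, sub_zero]; exact hs)
    rwa [Real.dist_eq, hf0, sub_zero] at this
  obtain ⟨d1, hd1, hd1'⟩ := hsmall (δ / 2) (by positivity)
  set δ' := min (min δ ε1) (min d1 (δ / 2)) with hδ'
  have hδ'0 : 0 < δ' := by
    rw [hδ']
    exact lt_min (lt_min hδ hε1) (lt_min hd1 (by positivity))
  have l1 : δ' ≤ δ := (min_le_left _ _).trans (min_le_left _ _)
  have l2 : δ' ≤ ε1 := (min_le_left _ _).trans (min_le_right _ _)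
  have l3 : δ' ≤ d1 := (min_le_right _ _).trans (min_le_left _ _)
  have l4 : δ' ≤ δ / 2 := (min_le_right _ _).trans (min_le_right _ _)
  let U : Set (ℝ × ℝ) := {q | |q.1| < δ ∧ |q.2| < δ ∧ f q.1 < q.2}
  have hU : IsOpen U := by
    refine (isOpen_lt (continuous_fst.abs) continuous_const).inter
      ((isOpen_lt (continuous_snd.abs) continuous_const).inter
        (isOpen_lt (hcont.comp continuous_fst) continuous_snd))
  have hUeq : ∀ q ∈ U, px a q + py b q = 0 ∧ px m q + py n q = 0 ∧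
      px m q * px a q + py m q * px b q + px n q * py a q + py n q * py b q = 0 :=
    fun q hq => heq q.1 q.2 hq.1 hq.2.1 hq.2.2
  have hin : ∀ s r, |s| < δ' → 0 < r → r < δ' → (s, f s + r) ∈ U := by
    intro s r h1 h2 h3
    have h4 := hd1' s (h1.trans_le l3)
    refine ⟨h1.trans_le l1, ?_, ?_⟩
    · change |f s + r| < δ
      have := abs_lt.1 h4
      rw [abs_lt]
      constructor <;> linarith
    · change f s < f s + r
      linarith
  have hSE' := hSE f a b m n U hf ha hb hm hn hU hUeq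
  obtain ⟨ε, hε, hzero⟩ := hEN (cP f m n) (cQ f m) (cA f a) (cB f a) (cC f a b) δ' hδ'0 rP rQ rA rB rC
    (fun s r h1 h2 h3 => (hSE' s r (hin s r h1 h2 h3)).1)
    (fun s r h1 h2 h3 => (hSE' s r (hin s r h1 h2 h3)).2)
    (fun s h1 => by
      have h4 := hd1' s (h1.trans_le l3)
      obtain ⟨-, -, h5, h6⟩ := hbd s (h1.trans_le l1) (by linarith)
      simp only [cP, add_zero]
      rw [h5, h6]; ring)
    (fun s h1 => hBC s (h1.trans_le l2))
    (by simp only [cA, hf0, add_zero]; linarith)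
    (by rw [hCy]; positivity)
  obtain ⟨d2, hd2, hd2'⟩ := hsmall (ε / 2) (by positivity)
  refine ⟨min ε (min d2 (ε / 2)), lt_min hε (lt_min hd2 (by positivity)), ?_⟩
  intro s r h1 h2 h3
  have k1 : |s| < ε := h1.trans_le (min_le_left _ _)
  have k2 : |s| < d2 := h1.trans_le ((min_le_right _ _).trans (min_le_left _ _))
  have k3 : |r| < ε / 2 := h2.trans_le ((min_le_right _ _).trans (min_le_right _ _))
  have k4 := abs_lt.1 (hd2' s k2)
  have k5 := abs_lt.1 k3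
  obtain ⟨z1, z2⟩ := hzero s (r - f s) k1 (by linarith) (by linarith)
  simp only [cP, cQ, add_sub_cancel] at z1 z2
  have z3 : m (s, r) = 0 := by linarith
  refine ⟨z3, ?_⟩
  rw [z3] at z1
  linarith

theorem AZ_px_neg (a : ℝ × ℝ → ℝ) (q : ℝ × ℝ) : px (fun z => -a z) q = -px a q := by
  unfold px
  rw [show (fun z => -a z) = -a from rfl, fderiv_neg]
  rfl

theorem AZ_py_neg (a : ℝ × ℝ → ℝ) (q : ℝ × ℝ) : py (fun z => -a z) q = -py a q := by
  unfold py
  rw [show (fun z => -a z) = -a from rfl, fderiv_neg]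
  rfl

theorem AZ (hEN : EN_stmt) (hSE : SE_stmt) (hSR : SR_stmt) (hSB : SB_stmt) : AZ_stmt := by
  intro f δ hf hf0 hδ hff a b m n ha hb hm hn heq hbd hne
  obtain ⟨-, hcurl, -⟩ := hSB f δ a b hf hf0 hδ ha hb
    (fun s r h1 h2 h3 => (heq s r h1 h2 h3).1)
    (fun s h1 h2 => ⟨(hbd s h1 h2).1, (hbd s h1 h2).2.1⟩)
  have hpy : py a (0, 0) ≠ 0 := by
    intro h0
    rw [h0, mul_zero] at hcurl
    exact hne (by linarith)
  rcases lt_or_gt_of_ne hpy with hlt | hgt
  · refine AZ_pos hEN hSE hSR hSB f δ hf hf0 hδ hff (fun z => -a z) (fun z => -b z) m n ha.neg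
      hb.neg hm hn ?_ ?_ ?_
    · intro s r h1 h2 h3
      obtain ⟨e1, e2, e3⟩ := heq s r h1 h2 h3
      rw [AZ_px_neg, AZ_py_neg, AZ_px_neg, AZ_py_neg]
      refine ⟨by linarith, e2, by linarith⟩
    · intro s h1 h2
      obtain ⟨e1, e2, e3, e4⟩ := hbd s h1 h2
      refine ⟨?_, ?_, e3, e4⟩
      · rw [e1, neg_zero]
      · rw [e2, neg_zero]
    · rw [AZ_py_neg]; linarith
  · exact AZ_pos hEN hSE hSR hSB f δ hf hf0 hδ hff a b m n ha hb hm hn heq hbd hgt

end NS
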