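import Pool.Agent.helper29.NS.Spec2

/-!
Project ns:, module DJ: the divergence of the energy flux.
-/

namespace NS

open MeasureTheory Filter Topology Set

theorem DJ : DJ_stmt := by
  intro P Q A B C K s r hP hQ hA hB hC h1 h2
  have dP := (hP.differentiable one_ne_zero (s, r)).hasFDerivAt
  have dQ := (hQ.differentiable one_ne_zero (s, r)).hasFDerivAt
  have dA := (hA.differentiable one_ne_zero (s, r)).hasFDerivAt
  have dB := (hB.differentiable one_ne_zero (s, r)).hasFDerivAt
  have dC := (hC.differentiable one_ne_zero (s, r)).hasFDerivAt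
  have dE : HasFDerivAt (fun z : ℝ × ℝ => Real.exp (-(K * z.2)))
      (Real.exp (-(K * r)) • (-(K • ContinuousLinearMap.snd ℝ ℝ ℝ))) (s, r) := by
    have h : HasFDerivAt (fun z : ℝ × ℝ => -(K * z.2))
        (-(K • ContinuousLinearMap.snd ℝ ℝ ℝ)) (s, r) :=
      (hasFDerivAt_snd.const_mul K).neg
    exact h.exp
  have e1 := ((dA.mul dP).add (dB.mul dQ)).fderiv
  have e2 := ((dB.mul dP).add (dC.mul dQ)).fderiv
  have e3 := (dE.mul (dQ.mul ((dA.mul dP).add (dB.mul dQ)))).fderiv
  have e4 := (dE.mul (((dC.mul (dQ.pow 2)).sub (dA.mul (dP.pow 2))).mul_const (1 / 2))).fderiv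
  have f1 : px (fun z => A z * P z + B z * Q z) (s, r) =
      A (s, r) * px P (s, r) + P (s, r) * px A (s, r) + (B (s, r) * px Q (s, r) +
        Q (s, r) * px B (s, r)) := by
    unfold px
    have : (fun z => A z * P z + B z * Q z) = (A * P) + (B * Q) := rfl
    rw [this, e1]
    simp
  have f2 : py (fun z => B z * P z + C z * Q z) (s, r) =
      B (s, r) * py P (s, r) + P (s, r) * py B (s, r) + (C (s, r) * py Q (s, r) +
        Q (s, r) * py C (s, r)) := by
    unfold py
    have : (fun z => B z * P z + C z * Q z) = (B * P) + (C * Q) := rfl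
    rw [this, e2]
    simp
  have f3 : px (fun z => Real.exp (-(K * z.2)) * (Q z * (A z * P z + B z * Q z))) (s, r) =
      Real.exp (-(K * r)) * (Q (s, r) * (A (s, r) * px P (s, r) + P (s, r) * px A (s, r) +
        (B (s, r) * px Q (s, r) + Q (s, r) * px B (s, r))) +
        (A (s, r) * P (s, r) + B (s, r) * Q (s, r)) * px Q (s, r)) := by
    unfold px
    have : (fun z => Real.exp (-(K * z.2)) * (Q z * (A z * P z + B z * Q z))) =
        (fun z : ℝ × ℝ => Real.exp (-(K * z.2))) * (Q * (A * P + B * Q)) := rfl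
    rw [this, e3]
    simp
    ring
  have f4 : py (fun z => Real.exp (-(K * z.2)) * ((C z * Q z ^ 2 - A z * P z ^ 2) / 2)) (s, r) =
      Real.exp (-(K * r)) * ((C (s, r) * (2 * Q (s, r) * py Q (s, r)) + Q (s, r) ^ 2 * py C (s, r) -
        (A (s, r) * (2 * P (s, r) * py P (s, r)) + P (s, r) ^ 2 * py A (s, r))) / 2) -
      Real.exp (-(K * r)) * K * ((C (s, r) * Q (s, r) ^ 2 - A (s, r) * P (s, r) ^ 2) / 2) := by
    unfold py
    have : (fun z => Real.exp (-(K * z.2)) * ((C z * Q z ^ 2 - A z * P z ^ 2) / 2)) =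
        (fun z : ℝ × ℝ => Real.exp (-(K * z.2))) *
          (fun z => ((C * fun x => Q x ^ 2) - A * fun x => P x ^ 2) z * (1 / 2)) := by
      funext z
      simp only [Pi.mul_apply, Pi.sub_apply]
      ring
    rw [this, e4]
    simp
    ring
  rw [f1, f2] at h2
  rw [f3, f4, h1]
  have h3 : A (s, r) * px P (s, r) + P (s, r) * px A (s, r) + (B (s, r) * px Q (s, r) +
      Q (s, r) * px B (s, r)) = -(B (s, r) * py P (s, r) + P (s, r) * py B (s, r) +
      (C (s, r) * py Q (s, r) + Q (s, r) * py C (s, r))) := by linarith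
  rw [h3, h1]
  ring

end NS
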